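import Pool.Agent.QPI.StmtsD

set_option autoImplicit false

/-!
# Squad QPI, row D_LEN: lengths of polynomials with integer coefficients
-/

namespace Pool.Agent.QPI.H42

open MvPolynomial

def J {σ : Type} (p : MvPolynomial σ ℚ) (x : ℚ) : Prop :=
  (∀ α, ∃ z : ℤ, p.coeff α = z) ∧ ∑ α ∈ p.support, |p.coeff α| ≤ x

def ln {σ : Type} (p : MvPolynomial σ ℚ) : ℚ := ∑ α ∈ p.support, |p.coeff α|

theorem ln_sub {σ : Type} (p : MvPolynomial σ ℚ) (s : Finset (σ →₀ ℕ)) (h : p.support ⊆ s) :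
    ln p = ∑ α ∈ s, |p.coeff α| := by
  unfold ln
  refine Finset.sum_subset h ?_
  intro α _ hα
  rw [MvPolynomial.notMem_support_iff.1 hα, abs_zero]

theorem ln_nonneg {σ : Type} (p : MvPolynomial σ ℚ) : 0 ≤ ln p :=
  Finset.sum_nonneg fun _ _ => abs_nonneg _

theorem ln_zero {σ : Type} : ln (0 : MvPolynomial σ ℚ) = 0 := by
  simp [ln]

theorem ln_add {σ : Type} (p q : MvPolynomial σ ℚ) : ln (p + q) ≤ ln p + ln q := by
  classical
  set s := p.support ∪ q.support ∪ (p + q).support with hs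
  rw [ln_sub p s (by intro a ha; simp only [hs, Finset.mem_union]; exact Or.inl (Or.inl ha)),
    ln_sub q s (by intro a ha; simp only [hs, Finset.mem_union]; exact Or.inl (Or.inr ha)),
    ln_sub (p + q) s (by intro a ha; simp only [hs, Finset.mem_union]; exact Or.inr ha),
    ← Finset.sum_add_distrib]
  refine Finset.sum_le_sum fun a _ => ?_
  rw [MvPolynomial.coeff_add]
  exact abs_add_le _ _

theorem ln_sum {ι : Type*} {σ : Type} (s : Finset ι) (p : ι → MvPolynomial σ ℚ) :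
    ln (∑ i ∈ s, p i) ≤ ∑ i ∈ s, ln (p i) := by
  classical
  induction s using Finset.induction_on with
  | empty => simp [ln_zero]
  | insert a s ha ih =>
    rw [Finset.sum_insert ha, Finset.sum_insert ha]
    exact (ln_add _ _).trans (add_le_add le_rfl ih)

theorem ln_monomial {σ : Type} (a : σ →₀ ℕ) (c : ℚ) : ln (monomial a c) = |c| := by
  classical
  rw [ln_sub _ {a} MvPolynomial.support_monomial_subset, Finset.sum_singleton,
    MvPolynomial.coeff_monomial, if_pos rfl]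

theorem ln_mul {σ : Type} (p q : MvPolynomial σ ℚ) : ln (p * q) ≤ ln p * ln q := by
  classical
  have h : p * q = ∑ a ∈ p.support, ∑ b ∈ q.support,
      monomial (a + b) (p.coeff a * q.coeff b) := by
    conv_lhs => rw [MvPolynomial.as_sum p, MvPolynomial.as_sum q]
    rw [Finset.sum_mul_sum]
    refine Finset.sum_congr rfl fun a _ => Finset.sum_congr rfl fun b _ => ?_
    rw [MvPolynomial.monomial_mul]
  rw [h]
  refine (ln_sum _ _).trans ?_
  refine (Finset.sum_le_sum fun a _ => ln_sum _ _).trans ?_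
  simp only [ln_monomial, abs_mul]
  rw [← Finset.sum_mul_sum]
  exact le_rfl

theorem J_iff {σ : Type} (p : MvPolynomial σ ℚ) (x : ℚ) :
    J p x ↔ (∀ α, ∃ z : ℤ, p.coeff α = z) ∧ ln p ≤ x := Iff.rfl

theorem int_add {σ : Type} {p q : MvPolynomial σ ℚ} (hp : ∀ α, ∃ z : ℤ, p.coeff α = z)
    (hq : ∀ α, ∃ z : ℤ, q.coeff α = z) : ∀ α, ∃ z : ℤ, (p + q).coeff α = z := by
  intro α
  obtain ⟨a, ha⟩ := hp α
  obtain ⟨b, hb⟩ := hq α
  exact ⟨a + b, by rw [MvPolynomial.coeff_add, ha, hb]; push_cast; ring⟩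

theorem int_sum {ι : Type*} (s : Finset ι) (f : ι → ℚ)
    (h : ∀ i ∈ s, ∃ z : ℤ, f i = z) : ∃ z : ℤ, ∑ i ∈ s, f i = z := by
  classical
  induction s using Finset.induction_on with
  | empty => exact ⟨0, by simp⟩
  | insert a s ha ih =>
    obtain ⟨z, hz⟩ := ih fun i hi => h i (Finset.mem_insert_of_mem hi)
    obtain ⟨w, hw⟩ := h a (Finset.mem_insert_self a s)
    exact ⟨w + z, by rw [Finset.sum_insert ha, hz, hw]; push_cast; ring⟩

theorem int_mul {σ : Type} {p q : MvPolynomial σ ℚ} (hp : ∀ α, ∃ z : ℤ, p.coeff α = z)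
    (hq : ∀ α, ∃ z : ℤ, q.coeff α = z) : ∀ α, ∃ z : ℤ, (p * q).coeff α = z := by
  classical
  intro α
  rw [MvPolynomial.coeff_mul]
  refine int_sum _ _ ?_
  intro x _
  obtain ⟨a, ha⟩ := hp x.1
  obtain ⟨b, hb⟩ := hq x.2
  exact ⟨a * b, by rw [ha, hb]; push_cast; ring⟩

theorem J_add {σ : Type} {p q : MvPolynomial σ ℚ} {x y : ℚ} (hp : J p x) (hq : J q y) :
    J (p + q) (x + y) :=
  ⟨int_add hp.1 hq.1, (ln_add p q).trans (add_le_add hp.2 hq.2)⟩

theorem J_mul {σ : Type} {p q : MvPolynomial σ ℚ} {x y : ℚ} (hp : J p x) (hq : J q y) :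
    J (p * q) (x * y) := by
  refine ⟨int_mul hp.1 hq.1, (ln_mul p q).trans ?_⟩
  have h1 : ln p ≤ x := hp.2
  have h2 : ln q ≤ y := hq.2
  exact mul_le_mul h1 h2 (ln_nonneg q) ((ln_nonneg p).trans h1)

theorem J_monomial {σ : Type} (a : σ →₀ ℕ) (z : ℤ) : J (monomial a (z : ℚ)) |(z : ℚ)| := by
  classical
  refine ⟨fun α => ?_, (ln_monomial a (z : ℚ)).le⟩
  rw [MvPolynomial.coeff_monomial]
  split_ifs
  · exact ⟨z, rfl⟩
  · exact ⟨0, by simp⟩

theorem J_one {σ : Type} : J (1 : MvPolynomial σ ℚ) 1 := by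
  have h := J_monomial (σ := σ) 0 1
  simpa using h

theorem J_mono {σ : Type} {p : MvPolynomial σ ℚ} {x y : ℚ} (hp : J p x) (h : x ≤ y) : J p y :=
  ⟨hp.1, hp.2.trans h⟩

theorem J_pow {σ : Type} {p : MvPolynomial σ ℚ} {x : ℚ} (hp : J p x) (n : ℕ) :
    J (p ^ n) (x ^ n) := by
  induction n with
  | zero => simpa using J_one
  | succ n ih => rw [pow_succ, pow_succ]; exact J_mul ih hp

theorem J_prod {ι : Type*} {σ : Type} (s : Finset ι) (p : ι → MvPolynomial σ ℚ) (x : ι → ℚ)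
    (h : ∀ i ∈ s, J (p i) (x i)) : J (∏ i ∈ s, p i) (∏ i ∈ s, x i) := by
  classical
  induction s using Finset.induction_on with
  | empty => simpa using J_one
  | insert a s ha ih =>
    rw [Finset.prod_insert ha, Finset.prod_insert ha]
    exact J_mul (h a (Finset.mem_insert_self a s))
      (ih fun i hi => h i (Finset.mem_insert_of_mem hi))

theorem J_sum {ι : Type*} {σ : Type} (s : Finset ι) (p : ι → MvPolynomial σ ℚ) (x : ι → ℚ)
    (h : ∀ i ∈ s, J (p i) (x i)) : J (∑ i ∈ s, p i) (∑ i ∈ s, x i) := by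
  classical
  induction s using Finset.induction_on with
  | empty =>
    refine ⟨fun α => ⟨0, by simp⟩, ?_⟩
    simp
  | insert a s ha ih =>
    rw [Finset.sum_insert ha, Finset.sum_insert ha]
    exact J_add (h a (Finset.mem_insert_self a s))
      (ih fun i hi => h i (Finset.mem_insert_of_mem hi))

theorem J_aeval {σ τ : Type} {p : MvPolynomial σ ℚ} {x : ℚ} (hp : J p x)
    (φ : σ → MvPolynomial τ ℚ) (Λ d : ℕ) (hΛ : 1 ≤ Λ) (hφ : ∀ v, J (φ v) Λ)
    (hd : ∀ α ∈ p.support, α.degree ≤ d) : J (aeval φ p) (x * (Λ : ℚ) ^ d) := by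
  classical
  have hΛ1 : (1 : ℚ) ≤ Λ := by exact_mod_cast hΛ
  have e : aeval φ p = ∑ α ∈ p.support, monomial 0 (p.coeff α) * ∏ v ∈ α.support, φ v ^ α v := by
    rw [MvPolynomial.aeval_def, MvPolynomial.eval₂_eq]
    rfl
  rw [e]
  have h1 : J (∑ α ∈ p.support, monomial 0 (p.coeff α) * ∏ v ∈ α.support, φ v ^ α v)
      (∑ α ∈ p.support, |p.coeff α| * (Λ : ℚ) ^ d) := by
    refine J_sum _ _ _ ?_
    intro α hα
    obtain ⟨z, hz⟩ := hp.1 α
    rw [hz]
    refine J_mul (J_monomial 0 z) ?_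
    have h2 : J (∏ v ∈ α.support, φ v ^ α v) (∏ v ∈ α.support, (Λ : ℚ) ^ α v) :=
      J_prod _ _ _ fun v _ => J_pow (hφ v) _
    refine J_mono h2 ?_
    rw [Finset.prod_pow_eq_pow_sum]
    exact pow_le_pow_right₀ hΛ1 (hd α hα)
  refine J_mono h1 ?_
  rw [← Finset.sum_mul]
  exact mul_le_mul_of_nonneg_right hp.2 (by positivity)

theorem d_len : LenStmt := by
  intro σ τ p q L L'
  refine ⟨?_, ?_, ?_, ?_, ?_, ?_, ?_⟩
  · intro hp hq
    have h := J_add (x := (L : ℚ)) (y := (L' : ℚ)) hp hq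
    exact ⟨h.1, h.2.trans (by push_cast; exact le_rfl)⟩
  · intro hp hq
    have h := J_mul (x := (L : ℚ)) (y := (L' : ℚ)) hp hq
    exact ⟨h.1, h.2.trans (by push_cast; exact le_rfl)⟩
  · intro hp
    refine ⟨fun α => ?_, ?_⟩
    · obtain ⟨z, hz⟩ := hp.1 α
      exact ⟨-z, by rw [MvPolynomial.coeff_neg, hz]; push_cast; ring⟩
    · have h : (-p).support = p.support := by
        ext a
        simp [MvPolynomial.mem_support_iff]
      rw [h]
      simpa using hp.2
  · intro hL hp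
    exact ⟨hp.1, hp.2.trans (by exact_mod_cast hL)⟩
  · intro a
    have h := J_monomial (σ := σ) 0 (a : ℤ)
    have e : (monomial (0 : σ →₀ ℕ) ((a : ℤ) : ℚ) : MvPolynomial σ ℚ) = (a : MvPolynomial σ ℚ) := by
      have h2 : (monomial (0 : σ →₀ ℕ) ((a : ℤ) : ℚ) : MvPolynomial σ ℚ) = C ((a : ℤ) : ℚ) := rfl
      rw [h2]
      simp
    rw [e] at h
    refine ⟨h.1, h.2.trans ?_⟩
    simp
  · intro s
    have h := J_monomial (σ := σ) (Finsupp.single s 1) 1
    have e : (monomial (Finsupp.single s 1) ((1 : ℤ) : ℚ) : MvPolynomial σ ℚ) = X s := by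
      simp [MvPolynomial.X]
    rw [e] at h
    refine ⟨h.1, h.2.trans ?_⟩
    simp
  · intro φ Λ d hΛ hφ hd hp
    have h := J_aeval (x := (L : ℚ)) hp φ Λ d hΛ hφ hd
    exact ⟨h.1, h.2.trans (by push_cast; exact le_rfl)⟩

end Pool.Agent.QPI.H42
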